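import Pool.Agent.Helper20.QD.St6

/-!
# Project QD, part B (MP_d112a4_gt), module DBD: boundary values of the Douady-Earle extension
-/

set_option autoImplicit false

open Filter Topology Matrix Set Metric
open scoped ComplexConjugate

namespace Pool.Agent.Helper98.QD

open Pool.Agent.Helper35.PM Pool.Agent.Helper20.QD

private theorem dbd_norm {w η : ℂ} (hη : ‖η‖ = 1) : ‖1 - conj w * η‖ = ‖η - w‖ := by
  have h1 : (1 : ℂ) - conj w * η = conj (η - w) * η := by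
    rw [map_sub, sub_mul, Complex.conj_mul', hη]
    norm_num
  rw [h1, norm_mul, hη, mul_one, Complex.norm_conj]

private theorem dbd_pos {w η : ℂ} (hw : ‖w‖ < 1) (hη : ‖η‖ = 1) : 0 < ‖η - w‖ := by
  rw [norm_pos_iff, sub_ne_zero]
  rintro rfl
  linarith

private theorem dbd_ne {w η : ℂ} (hw : ‖w‖ < 1) (hη : ‖η‖ = 1) : (1 : ℂ) - conj w * η ≠ 0 := by
  rw [← norm_pos_iff, dbd_norm hη]
  exact dbd_pos hw hη

private theorem dbd_TT {w η : ℂ} (hw : ‖w‖ < 1) (hη : ‖η‖ = 1) : ‖TT w η‖ = 1 := by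
  unfold TT
  rw [norm_div, dbd_norm hη, div_self (dbd_pos hw hη).ne']

private theorem dbd_diff {w η η0 : ℂ} {ε : ℝ} (hε : 0 < ε) (hw : ‖w‖ < 1) (hη : ‖η‖ = 1)
    (hη0 : ‖η0‖ = 1) (h0 : ε ≤ ‖w - η0‖) (h1 : ‖η - η0‖ ≤ ε / 2) (h2 : ‖η - η0‖ ≤ ε ^ 2 / 8) :
    ‖TT w η - TT w η0‖ ≤ 1 / 4 := by
  have hn := dbd_ne hw hη
  have hn0 := dbd_ne hw hη0
  have e : TT w η - TT w η0 =
      (η - η0) * (1 - conj w * w) / ((1 - conj w * η) * (1 - conj w * η0)) := by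
    unfold TT
    rw [div_sub_div _ _ hn hn0]
    congr 1
    ring
  rw [e, norm_div, norm_mul, norm_mul, dbd_norm hη, dbd_norm hη0]
  have a1 : ε ≤ ‖η0 - w‖ := by rwa [norm_sub_rev]
  have a2 : ε / 2 ≤ ‖η - w‖ := by
    have : ‖η0 - w‖ ≤ ‖η0 - η‖ + ‖η - w‖ := norm_sub_le_norm_sub_add_norm_sub _ _ _
    rw [norm_sub_rev η0 η] at this
    linarith
  have a3 : ‖(1 : ℂ) - conj w * w‖ ≤ 1 := by
    rw [Complex.conj_mul']
    have h3 : (1 : ℂ) - (‖w‖ : ℂ) ^ 2 = ((1 - ‖w‖ ^ 2 : ℝ) : ℂ) := by push_cast; ring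
    rw [h3, Complex.norm_real, Real.norm_eq_abs, abs_le]
    constructor <;> nlinarith [norm_nonneg w]
  have a4 : ε / 2 * ε ≤ ‖η - w‖ * ‖η0 - w‖ :=
    mul_le_mul a2 a1 hε.le (norm_nonneg _)
  have a5 : 0 < ε / 2 * ε := by positivity
  rw [div_le_iff₀ (lt_of_lt_of_le a5 a4)]
  calc ‖η - η0‖ * ‖(1 : ℂ) - conj w * w‖ ≤ ε ^ 2 / 8 * 1 :=
        mul_le_mul h2 a3 (norm_nonneg _) (by positivity)
    _ ≤ 1 / 4 * (ε / 2 * ε) := by nlinarith
    _ ≤ _ := by linarith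

private theorem dbd_exp (t : ℝ) : ‖Complex.exp (t * Complex.I)‖ = 1 :=
  Complex.norm_exp_ofReal_mul_I t

private theorem dbd_mem (t : ℝ) : Complex.exp (t * Complex.I) ∈ SS := by
  rw [mem_sphere_zero_iff_norm]
  exact dbd_exp t

private theorem dbd_expc : Continuous fun t : ℝ => Complex.exp (t * Complex.I) := by
  fun_prop

private theorem dbd_PKc {z : ℂ} (hz : ‖z‖ < 1) :
    Continuous fun t : ℝ => PK z (Complex.exp (t * Complex.I)) := by
  unfold PK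
  refine Continuous.div continuous_const (by fun_prop) fun t => ?_
  exact pow_ne_zero 2 (dbd_pos hz (dbd_exp t)).ne'

private theorem dbd_uc {φ : ℂ → ℂ} (hφ : ContinuousOn φ SS) :
    Continuous fun t : ℝ => φ (Complex.exp (t * Complex.I)) :=
  hφ.comp_continuous dbd_expc dbd_mem

private theorem dbd_est (hPIN : StPIN) {φ : ℂ → ℂ} (hφ : ContinuousOn φ SS)
    (hm : MapsTo φ SS SS) {z w η0 ζ0 : ℂ} (hz : ‖z‖ < 1) (hw : ‖w‖ < 1) (h0 : FF φ z w = 0)
    (hη0 : ‖η0‖ = 1) {ε δ : ℝ} (hε : 0 < ε) (hδ : 0 < δ)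
    (h1 : ∀ ζ ∈ SS, ‖ζ - ζ0‖ < δ → ‖φ ζ - η0‖ ≤ ε / 2 ∧ ‖φ ζ - η0‖ ≤ ε ^ 2 / 8)
    (h2 : ‖z - ζ0‖ ≤ δ / 2) (h3 : 32 * (1 - ‖z‖ ^ 2) < 3 * δ ^ 2) : ‖w - η0‖ < ε := by
  by_contra hcon
  push Not at hcon
  have hzD : z ∈ D := by
    rw [mem_ball_zero_iff]; exact hz
  set c0 := TT w η0 with hc0
  set P : ℝ → ℝ := fun t => PK z (Complex.exp (t * Complex.I)) with hP
  have hPc : Continuous P := dbd_PKc hz
  have hPpos : ∀ t, 0 < P t := fun t => hPIN.2.2 z hzD _ (dbd_mem t)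
  have hpi : (0 : ℝ) < 2 * Real.pi := by positivity
  have hpi' : (((2 * Real.pi : ℝ) : ℂ)) ≠ 0 := by exact_mod_cast hpi.ne'
  have hmass : ∫ t in (0 : ℝ)..(2 * Real.pi), P t = 2 * Real.pi := by
    have h4 := hPIN.2.1 z hzD
    unfold PI at h4
    simp only [mul_one] at h4
    rw [intervalIntegral.integral_ofReal, inv_mul_eq_iff_eq_mul₀ hpi', mul_one] at h4
    exact_mod_cast h4
  -- the integrand
  have hTc : Continuous fun t : ℝ => TT w (φ (Complex.exp (t * Complex.I))) := by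
    unfold TT
    refine Continuous.div ((dbd_uc hφ).sub continuous_const)
      (continuous_const.sub (continuous_const.mul (dbd_uc hφ))) fun t => ?_
    exact dbd_ne hw (mem_sphere_zero_iff_norm.1 (hm (dbd_mem t)))
  have hint1 : IntervalIntegrable (fun t : ℝ => (P t : ℂ) * TT w (φ (Complex.exp (t * Complex.I))))
      MeasureTheory.volume 0 (2 * Real.pi) :=
    ((Complex.continuous_ofReal.comp hPc).mul hTc).intervalIntegrable _ _
  have hint2 : IntervalIntegrable (fun t : ℝ => (P t : ℂ) * c0)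
      MeasureTheory.volume 0 (2 * Real.pi) :=
    ((Complex.continuous_ofReal.comp hPc).mul continuous_const).intervalIntegrable _ _
  have hI1 : ∫ t in (0 : ℝ)..(2 * Real.pi), (P t : ℂ) * TT w (φ (Complex.exp (t * Complex.I))) = 0 := by
    have h5 := h0
    unfold FF PI at h5
    rcases mul_eq_zero.1 h5 with h | h
    · exact absurd h (inv_ne_zero hpi')
    · exact h
  have hI2 : ∫ t in (0 : ℝ)..(2 * Real.pi), (P t : ℂ) * c0 = ((2 * Real.pi : ℝ) : ℂ) * c0 := by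
    rw [intervalIntegral.integral_mul_const, intervalIntegral.integral_ofReal, hmass]
  have hI3 : ∫ t in (0 : ℝ)..(2 * Real.pi),
      (P t : ℂ) * (c0 - TT w (φ (Complex.exp (t * Complex.I)))) = ((2 * Real.pi : ℝ) : ℂ) * c0 := by
    rw [← hI2, ← sub_zero (∫ t in (0 : ℝ)..(2 * Real.pi), (P t : ℂ) * c0), ← hI1,
      ← intervalIntegral.integral_sub hint2 hint1]
    congr 1
    funext t
    ring
  have hbd : ∀ t : ℝ, ‖(P t : ℂ) * (c0 - TT w (φ (Complex.exp (t * Complex.I))))‖ ≤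
      P t * (1 / 4) + 8 * (1 - ‖z‖ ^ 2) / δ ^ 2 := by
    intro t
    set ζ := Complex.exp (t * Complex.I) with hζ
    have hζm : ζ ∈ SS := dbd_mem t
    have hφ1 : ‖φ ζ‖ = 1 := mem_sphere_zero_iff_norm.1 (hm hζm)
    have hz2 : 0 ≤ 1 - ‖z‖ ^ 2 := by nlinarith [norm_nonneg z]
    rw [norm_mul, Complex.norm_real, Real.norm_of_nonneg (hPpos t).le, norm_sub_rev]
    rcases lt_or_ge ‖ζ - ζ0‖ δ with hlt | hge
    · have h5 := dbd_diff hε hw hφ1 hη0 hcon (h1 ζ hζm hlt).1 (h1 ζ hζm hlt).2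
      have h6 : P t * ‖TT w (φ ζ) - c0‖ ≤ P t * (1 / 4) :=
        mul_le_mul_of_nonneg_left h5 (hPpos t).le
      have h7 : 0 ≤ 8 * (1 - ‖z‖ ^ 2) / δ ^ 2 := by positivity
      linarith
    · have h5 : ‖TT w (φ ζ) - c0‖ ≤ 2 := by
        refine (norm_sub_le _ _).trans ?_
        rw [dbd_TT hw hφ1, hc0, dbd_TT hw hη0]
        norm_num
      have h6 : δ / 2 ≤ ‖ζ - z‖ := by
        have : ‖ζ - ζ0‖ ≤ ‖ζ - z‖ + ‖z - ζ0‖ := norm_sub_le_norm_sub_add_norm_sub _ _ _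
        linarith
      have h7 : P t ≤ 4 * (1 - ‖z‖ ^ 2) / δ ^ 2 := by
        show (1 - ‖z‖ ^ 2) / ‖ζ - z‖ ^ 2 ≤ _
        have h8 : (δ / 2) ^ 2 ≤ ‖ζ - z‖ ^ 2 := pow_le_pow_left₀ (by positivity) h6 2
        have h9 : (0 : ℝ) < (δ / 2) ^ 2 := by positivity
        calc (1 - ‖z‖ ^ 2) / ‖ζ - z‖ ^ 2 ≤ (1 - ‖z‖ ^ 2) / (δ / 2) ^ 2 :=
              div_le_div_of_nonneg_left hz2 h9 h8
          _ = 4 * (1 - ‖z‖ ^ 2) / δ ^ 2 := by
              field_simp
              ring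
      have h8 : P t * ‖TT w (φ ζ) - c0‖ ≤ 4 * (1 - ‖z‖ ^ 2) / δ ^ 2 * 2 :=
        mul_le_mul h7 h5 (norm_nonneg _) (by positivity)
      have h9 : 0 ≤ P t * (1 / 4) := by
        have := (hPpos t).le
        positivity
      have h10 : 4 * (1 - ‖z‖ ^ 2) / δ ^ 2 * 2 = 8 * (1 - ‖z‖ ^ 2) / δ ^ 2 := by ring
      linarith
  have hgc : Continuous fun t : ℝ => P t * (1 / 4) + 8 * (1 - ‖z‖ ^ 2) / δ ^ 2 :=
    (hPc.mul continuous_const).add continuous_const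
  have hfin := intervalIntegral.norm_integral_le_of_norm_le hpi.le
    (MeasureTheory.ae_of_all _ fun t _ => hbd t)
    (hgc.intervalIntegrable (μ := MeasureTheory.volume) 0 (2 * Real.pi))
  have hI4 : ∫ t in (0 : ℝ)..(2 * Real.pi), (P t * (1 / 4) + 8 * (1 - ‖z‖ ^ 2) / δ ^ 2) =
      2 * Real.pi * (1 / 4) + 2 * Real.pi * (8 * (1 - ‖z‖ ^ 2) / δ ^ 2) := by
    have hc1 : Continuous fun t : ℝ => P t * (1 / 4) := hPc.mul continuous_const
    rw [intervalIntegral.integral_add (hc1.intervalIntegrable _ _)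
      (continuous_const.intervalIntegrable _ _), intervalIntegral.integral_mul_const, hmass,
      intervalIntegral.integral_const, smul_eq_mul, sub_zero]
  rw [hI3, norm_mul, hc0, dbd_TT hw hη0, mul_one, Complex.norm_real, Real.norm_of_nonneg hpi.le,
    hI4] at hfin
  have h4 : 8 * (1 - ‖z‖ ^ 2) / δ ^ 2 < 3 / 4 := by
    rw [div_lt_iff₀ (by positivity)]
    linarith
  nlinarith

/-- DBD. -/
theorem hDBD (hPIN : StPIN) : StDBD := by
  intro φ E hφ hE hF hEc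
  obtain ⟨hφc, -, hφm, -⟩ := hφ
  intro p hp
  rw [mem_closedBall_zero_iff] at hp
  rcases lt_or_eq_of_le hp with hp1 | hp1
  · have h1 : ContinuousAt E p := hEc.continuousAt (isOpen_ball.mem_nhds (by
      rw [mem_ball_zero_iff]; exact hp1))
    have h2 : (fun z => if ‖z‖ < 1 then E z else φ z) =ᶠ[𝓝 p] E := by
      filter_upwards [isOpen_ball.mem_nhds (show p ∈ ball (0 : ℂ) 1 by
        rw [mem_ball_zero_iff]; exact hp1)] with z hz
      rw [if_pos (mem_ball_zero_iff.1 hz)]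
    exact (h1.congr_of_eventuallyEq h2).continuousWithinAt
  · have hpS : p ∈ SS := mem_sphere_zero_iff_norm.2 hp1
    have hη0 : ‖φ p‖ = 1 := mem_sphere_zero_iff_norm.1 (hφm hpS)
    rw [Metric.continuousWithinAt_iff]
    intro ε hε
    have hε2 : 0 < min ε (min (ε / 2) (ε ^ 2 / 8)) := by positivity
    obtain ⟨δ, hδ, hδ1⟩ := Metric.continuousWithinAt_iff.1 (hφc p hpS) _ hε2
    have hδ2 : ∀ ζ ∈ SS, ‖ζ - p‖ < δ → ‖φ ζ - φ p‖ < min ε (min (ε / 2) (ε ^ 2 / 8)) := by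
      intro ζ hζ hζp
      have := hδ1 hζ (by rwa [dist_eq_norm])
      rwa [dist_eq_norm] at this
    refine ⟨min (δ / 2) (min (δ ^ 2 / 32) 1), by positivity, ?_⟩
    intro z hz hzp
    rw [dist_eq_norm] at hzp
    have hz1 : ‖z - p‖ < δ / 2 := lt_of_lt_of_le hzp (min_le_left _ _)
    have hz2 : ‖z - p‖ < δ ^ 2 / 32 :=
      lt_of_lt_of_le hzp ((min_le_right _ _).trans (min_le_left _ _))
    rw [mem_closedBall_zero_iff] at hz
    have hpn : ¬ ‖p‖ < 1 := by rw [hp1]; exact lt_irrefl 1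
    rw [dist_eq_norm, if_neg hpn]
    by_cases hzn : ‖z‖ < 1
    · rw [if_pos hzn]
      have hzD : z ∈ D := mem_ball_zero_iff.2 hzn
      refine dbd_est hPIN hφc hφm hzn (mem_ball_zero_iff.1 (hE hzD)) (hF z hzD) hη0 hε hδ
        ?_ hz1.le ?_
      · intro ζ hζ hζp
        have h1 := hδ2 ζ hζ hζp
        exact ⟨(h1.trans_le ((min_le_right _ _).trans (min_le_left _ _))).le,
          (h1.trans_le ((min_le_right _ _).trans (min_le_right _ _))).le⟩
      · have h1 : ‖p‖ ≤ ‖z‖ + ‖z - p‖ := by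
          have := norm_sub_le_norm_sub_add_norm_sub (0 : ℂ) z p
          rw [zero_sub, norm_neg, zero_sub, norm_neg] at this
          exact this
        rw [hp1] at h1
        nlinarith [norm_nonneg z]
    · rw [if_neg hzn]
      have hzS : z ∈ SS := mem_sphere_zero_iff_norm.2 (le_antisymm hz (not_lt.1 hzn))
      exact (hδ2 z hzS (by linarith)).trans_le (min_le_left _ _)

end Pool.Agent.Helper98.QD
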