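import Pool.Agent.Helper58.QD.StG

/-!
# Project QD, module GRD: differences and gradients
-/

set_option autoImplicit false

noncomputable section

namespace Pool.Agent.Helper98.QD

open Helper62.LH Helper62.DSH Helper58.QD MeasureTheory Set Filter Topology
open scoped ContDiff ENNReal

/-- Cauchy-Schwarz and the fundamental theorem on the unit interval -/
private lemma ftcs_Grd (U W : ℝ → ℝ) (hW : ContinuousOn W (Icc 0 1))
    (hU : ∀ t ∈ Icc (0 : ℝ) 1, HasDerivWithinAt U (W t) (Icc 0 1) t) :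
    (U 1 - U 0) ^ 2 ≤ ∫ t in Icc (0 : ℝ) 1, W t ^ 2 := by
  have hWu : ContinuousOn W (uIcc (0 : ℝ) 1) := by rwa [uIcc_of_le zero_le_one]
  have hWi : IntervalIntegrable W volume 0 1 := hWu.intervalIntegrable
  have hftc : (∫ t in (0 : ℝ)..1, W t) = U 1 - U 0 := by
    refine intervalIntegral.integral_eq_sub_of_hasDeriv_right
      (fun t ht => ?_) (fun t ht => ?_) hWi
    · rw [uIcc_of_le zero_le_one] at ht ⊢
      exact (hU t ht).continuousWithinAt
    · rw [min_eq_left zero_le_one, max_eq_right zero_le_one] at ht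
      have h1 := hU t ⟨ht.1.le, ht.2.le⟩
      exact (h1.hasDerivAt (Icc_mem_nhds ht.1 ht.2)).hasDerivWithinAt
  set I : ℝ := U 1 - U 0 with hI
  have h1 : 0 ≤ ∫ t in (0 : ℝ)..1, (W t - I) ^ 2 :=
    intervalIntegral.integral_nonneg zero_le_one fun t _ => sq_nonneg _
  have h2 : ∫ t in (0 : ℝ)..1, (W t - I) ^ 2 =
      ∫ t in (0 : ℝ)..1, ((W t ^ 2 - (2 * I) * W t) + I ^ 2) := by
    refine intervalIntegral.integral_congr fun t _ => ?_
    ring
  have hWq : IntervalIntegrable (fun t => W t ^ 2) volume 0 1 :=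
    (hWu.pow 2).intervalIntegrable
  rw [h2, intervalIntegral.integral_add, intervalIntegral.integral_sub,
    intervalIntegral.integral_const_mul, hftc, intervalIntegral.integral_const] at h1
  · simp only [sub_zero, smul_eq_mul, one_mul] at h1
    rw [integral_Icc_eq_integral_Ioc, ← intervalIntegral.integral_of_le zero_le_one]
    nlinarith
  · exact hWq
  · exact hWi.const_mul _
  · exact hWq.sub (hWi.const_mul _)
  · exact continuous_const.intervalIntegrable _ _

theorem hGrd (hMg : StMg) (hRgc : StRgc) (hIna : StIna) : SGrd := by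
  intro n g Γ hg hΓ hcpl z hz x y
  obtain ⟨c, hc0, hc1, hcd⟩ := hMg n g hg hcpl x y
  obtain ⟨v, hgeo, hsp⟩ := hRgc n g Γ hg hΓ c x y ⟨hc0, hc1, hcd⟩
  have hcc : ContinuousOn c (Icc 0 1) := fun t ht => (hgeo.dc t ht).continuousWithinAt
  have hvc : ContinuousOn v (Icc 0 1) := fun t ht => (hgeo.dv t ht).continuousWithinAt
  set W : ℝ → ℝ := fun t => fderiv ℝ z (c t) (v t) with hWdef
  have hD : Continuous (fderiv ℝ z) := hz.continuous_fderiv (by simp)
  have hW : ContinuousOn W (Icc 0 1) :=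
    (hD.comp_continuousOn hcc).clm_apply hvc
  have hU : ∀ t ∈ Icc (0 : ℝ) 1, HasDerivWithinAt (fun s => z (c s)) (W t) (Icc 0 1) t := by
    intro t ht
    have h1 : HasFDerivAt z (fderiv ℝ z (c t)) (c t) :=
      (hz.differentiable (by simp) (c t)).hasFDerivAt
    exact h1.comp_hasDerivWithinAt t (hgeo.dc t ht)
  have hfin := ftcs_Grd (fun s => z (c s)) W hW hU
  simp only [hc0, hc1] at hfin
  have hsym : (z x - z y) ^ 2 = (z y - z x) ^ 2 := by ring
  have hWint : Integrable (fun t => W t ^ 2) (volume.restrict (Icc (0 : ℝ) 1)) :=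
    (hW.pow 2).integrableOn_compact isCompact_Icc
  calc ENNReal.ofReal ((z x - z y) ^ 2)
      ≤ ENNReal.ofReal (∫ t in Icc (0 : ℝ) 1, W t ^ 2) := by
        rw [hsym]
        exact ENNReal.ofReal_le_ofReal hfin
    _ = ∫⁻ t in Icc (0 : ℝ) 1, ENNReal.ofReal (W t ^ 2) :=
        ofReal_integral_eq_lintegral_ofReal hWint (Eventually.of_forall fun t => sq_nonneg _)
    _ ≤ ∫⁻ t in Icc (0 : ℝ) 1, ENNReal.ofReal (dg g x y ^ 2) * HS g (gs g z) t x y := by
        refine setLIntegral_mono' measurableSet_Icc fun t ht => ?_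
        have hmem : c t ∈ Gt g t x y := by
          have h0 : (0 : ℝ) ∈ Icc (0 : ℝ) 1 := left_mem_Icc.2 zero_le_one
          have h1 : (1 : ℝ) ∈ Icc (0 : ℝ) 1 := right_mem_Icc.2 zero_le_one
          constructor
          · rw [← hc0]
            rw [hcd 0 h0 t ht, hc0, zero_sub, abs_neg, abs_of_nonneg ht.1]
          · have h2 := hcd t ht 1 h1
            rw [hc1] at h2
            rw [h2, abs_sub_comm, abs_of_nonneg (sub_nonneg.2 ht.2)]
        have hbd : W t ^ 2 ≤ dg g x y ^ 2 * gs g z (c t) := by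
          obtain ⟨i1, -, -, -, i5, -⟩ := hIna n g hg (c t)
          have h1 := i5 (fderiv ℝ z (c t)) (v t)
          have h2 : W t ^ 2 ≤ (√(ip g (c t) (fderiv ℝ z (c t)) (fderiv ℝ z (c t))) *
              nr g (c t) (v t)) ^ 2 := by
            rw [← sq_abs (W t)]
            exact pow_le_pow_left₀ (abs_nonneg _) h1 2
          rw [mul_pow, Real.sq_sqrt (i1 _)] at h2
          have h3 : nr g (c t) (v t) ^ 2 = dg g x y ^ 2 := by
            unfold nr
            rw [hsp t ht, Real.sq_sqrt (sq_nonneg _)]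
          rw [h3] at h2
          refine h2.trans (le_of_eq ?_)
          unfold gs
          ring
        calc ENNReal.ofReal (W t ^ 2) ≤ ENNReal.ofReal (dg g x y ^ 2 * gs g z (c t)) :=
              ENNReal.ofReal_le_ofReal hbd
          _ = ENNReal.ofReal (dg g x y ^ 2) * ENNReal.ofReal (gs g z (c t)) :=
              ENNReal.ofReal_mul (sq_nonneg _)
          _ ≤ _ := by
              gcongr
              exact le_iSup₂ (f := fun w (_ : w ∈ Gt g t x y) => ENNReal.ofReal (gs g z w))
                (c t) hmem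
    _ = ENNReal.ofReal (dg g x y ^ 2) * ∫⁻ t in Icc (0 : ℝ) 1, HS g (gs g z) t x y :=
        lintegral_const_mul' _ _ ENNReal.ofReal_ne_top

end Pool.Agent.Helper98.QD
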