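import Pool.Agent.Helper58.QD.StS
import Pool.Agent.Helper84.LH.M_WT

/-!
# Project QD, module WTE: weights concentrated on an annulus
-/

set_option autoImplicit false

noncomputable section

namespace Pool.Agent.Helper98.QD

open Helper62.LH Helper62.DSH Helper58.QD MeasureTheory Set Filter Topology
open scoped ContDiff ENNReal

/-- the limit of the weights -/
private lemma lim_Wte {n : ℕ} (W ψ : E n → ℝ) (Z : Set (E n)) (hW : Continuous W)
    (hW0 : ∀ x, 0 ≤ W x) (hψ : Continuous ψ) (hψ0 : ∀ x, 0 ≤ ψ x) (hZ : MeasurableSet Z)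
    (hz : ∀ x ∈ Z, ψ x = 0) (hnz : ∀ x, x ∉ Z → 0 < ψ x)
    (hint : Integrable (fun x => W x * Real.exp (-ψ x))) (κ : ℝ) (hκ : 0 < κ) :
    ∃ N : ℕ, Integrable (fun x => W x * Real.exp (-(((N : ℝ) + 1) * ψ x))) ∧
      ∫ x, W x * Real.exp (-(((N : ℝ) + 1) * ψ x)) ≤ (∫ x in Z, W x) + κ := by
  have hc : ∀ N : ℕ, Continuous (fun x => W x * Real.exp (-(((N : ℝ) + 1) * ψ x))) := fun N =>
    hW.mul (Real.continuous_exp.comp (continuous_const.mul hψ).neg)
  have hle : ∀ (N : ℕ) (x : E n), W x * Real.exp (-(((N : ℝ) + 1) * ψ x)) ≤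
      W x * Real.exp (-ψ x) := by
    intro N x
    refine mul_le_mul_of_nonneg_left (Real.exp_le_exp.2 ?_) (hW0 x)
    have h1 : 0 ≤ (N : ℝ) * ψ x := mul_nonneg (Nat.cast_nonneg N) (hψ0 x)
    nlinarith
  have hnn : ∀ (N : ℕ) (x : E n), 0 ≤ W x * Real.exp (-(((N : ℝ) + 1) * ψ x)) := fun N x =>
    mul_nonneg (hW0 x) (Real.exp_pos _).le
  have hi : ∀ N : ℕ, Integrable (fun x => W x * Real.exp (-(((N : ℝ) + 1) * ψ x))) := by
    intro N
    refine hint.mono' (hc N).aestronglyMeasurable (Eventually.of_forall fun x => ?_)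
    rw [Real.norm_of_nonneg (hnn N x)]
    exact hle N x
  have hlim : Tendsto (fun N : ℕ => ∫ x, W x * Real.exp (-(((N : ℝ) + 1) * ψ x))) atTop
      (𝓝 (∫ x, Z.indicator W x)) := by
    refine tendsto_integral_of_dominated_convergence (fun x => W x * Real.exp (-ψ x))
      (fun N => (hc N).aestronglyMeasurable) hint
      (fun N => Eventually.of_forall fun x => ?_) (Eventually.of_forall fun x => ?_)
    · rw [Real.norm_of_nonneg (hnn N x)]
      exact hle N x
    · by_cases hx : x ∈ Z
      · rw [indicator_of_mem hx]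
        simp only [hz x hx, mul_zero, neg_zero, Real.exp_zero, mul_one]
        exact tendsto_const_nhds
      · rw [indicator_of_notMem hx]
        have h1 : Tendsto (fun N : ℕ => ((N : ℝ) + 1) * ψ x) atTop atTop :=
          (tendsto_atTop_add_const_right _ 1 tendsto_natCast_atTop_atTop).atTop_mul_const
            (hnz x hx)
        have h2 := (Real.tendsto_exp_neg_atTop_nhds_zero.comp h1).const_mul (W x)
        rw [mul_zero] at h2
        exact h2
  rw [integral_indicator hZ] at hlim
  have h3 := hlim.eventually (gt_mem_nhds (lt_add_of_pos_right (∫ x in Z, W x) hκ))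
  obtain ⟨N, hN⟩ := h3.exists
  exact ⟨N, hi N, hN.le⟩

theorem hWte (hCvx : StCvx) (hDlv : StDlv) : SWte := by
  intro n g Γ hg hΓ β hβ hK h hh hh0 s t κ hκ
  obtain ⟨hvs, hvp, -⟩ := hDlv n g Γ hg hΓ
  set W : E n → ℝ := fun x => h x * vol g x with hW
  have hWc : Continuous W := hh.mul hvs.continuous
  have hW0 : ∀ x, 0 ≤ W x := fun x => mul_nonneg (hh0 x) (hvp x).le
  obtain ⟨Φ, hFs, hF0, hFz, hFm, -, -, -, hFA⟩ := hCvx t
    (fun j : ℕ => Real.log (1 + ∫ x in {x | β x + 1 ≤ t - 1 + 4 + j}, W x) + j * Real.log 2)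
  have hK' : ∀ R, IsCompact {x | β x + 1 ≤ R} := by
    intro R
    have : {x | β x + 1 ≤ R} = {x | β x ≤ R - 1} := by
      ext x
      simp only [Set.mem_ofPred_eq]
      constructor <;> intro hx <;> linarith
    rw [this]
    exact hK (R - 1)
  have hint0 : Integrable (fun x => W x * Real.exp (-Φ (β x + 1 - 1))) := by
    refine Pool.Agent.Helper84.LH.WT_int hWc hW0 (hβ.continuous.add continuous_const) hK'
      (R := t - 1) hFs.continuous hF0 hFm fun j => ?_
    have := hFA j
    rw [show t + 1 + (j : ℝ) = t - 1 + 2 + j by ring] at this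
    exact this
  set ψ₀ : E n → ℝ := fun x => expNegInvGlue (β x - t) + Φ (β x) + expNegInvGlue (s - β x) with hψ
  have hψs : ContDiff ℝ ∞ ψ₀ :=
    ((expNegInvGlue.contDiff.comp (hβ.sub contDiff_const)).add (hFs.comp hβ)).add
      (expNegInvGlue.contDiff.comp (contDiff_const.sub hβ))
  have hge : ∀ x, Φ (β x) ≤ ψ₀ x := by
    intro x
    have h1 := expNegInvGlue.nonneg (β x - t)
    have h2 := expNegInvGlue.nonneg (s - β x)
    simp only [hψ]
    linarith
  have hψ0 : ∀ x, 0 ≤ ψ₀ x := fun x => (hF0 _).trans (hge x)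
  have hz : ∀ x ∈ An β s t, ψ₀ x = 0 := by
    rintro x ⟨h1, h2⟩
    simp only [hψ]
    rw [expNegInvGlue.zero_of_nonpos (by linarith), expNegInvGlue.zero_of_nonpos (by linarith),
      hFz _ h2]
    ring
  have hnz : ∀ x, x ∉ An β s t → 0 < ψ₀ x := by
    intro x hx
    have h1 := expNegInvGlue.nonneg (β x - t)
    have h2 := expNegInvGlue.nonneg (s - β x)
    have h3 := hF0 (β x)
    by_cases h4 : s ≤ β x
    · have h5 : t < β x := by
        by_contra h6
        exact hx ⟨h4, not_lt.1 h6⟩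
      have h6 : 0 < expNegInvGlue (β x - t) := expNegInvGlue.pos_of_pos (by linarith)
      simp only [hψ]
      linarith
    · have h6 : 0 < expNegInvGlue (s - β x) := expNegInvGlue.pos_of_pos (by linarith)
      simp only [hψ]
      linarith
  have hint : Integrable (fun x => W x * Real.exp (-ψ₀ x)) := by
    refine hint0.mono' (hWc.mul (Real.continuous_exp.comp hψs.continuous.neg)).aestronglyMeasurable
      (Eventually.of_forall fun x => ?_)
    rw [Real.norm_of_nonneg (mul_nonneg (hW0 x) (Real.exp_pos _).le), add_sub_cancel_right]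
    exact mul_le_mul_of_nonneg_left (Real.exp_le_exp.2 (neg_le_neg (hge x))) (hW0 x)
  have hZ : MeasurableSet (An β s t) := by
    have h1 : IsClosed {x | s ≤ β x} := isClosed_le continuous_const hβ.continuous
    have h2 : IsClosed {x | β x ≤ t} := isClosed_le hβ.continuous continuous_const
    exact (h1.inter h2).measurableSet
  obtain ⟨N, hN1, hN2⟩ := lim_Wte W ψ₀ (An β s t) hWc hW0 hψs.continuous hψ0 hZ hz hnz hint κ hκ
  have he : (fun x => h x * wt g (fun x => ((N : ℝ) + 1) * ψ₀ x) x) =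
      fun x => W x * Real.exp (-(((N : ℝ) + 1) * ψ₀ x)) := by
    funext x
    simp only [wt, hW]
    ring
  refine ⟨fun x => ((N : ℝ) + 1) * ψ₀ x, contDiff_const.mul hψs, fun x => ?_, fun x hx => ?_,
    ?_, ?_⟩
  · exact mul_nonneg (by positivity) (hψ0 x)
  · simp only [hz x hx, mul_zero]
  · rw [he]
    exact hN1
  · rw [he]
    exact hN2

end Pool.Agent.Helper98.QD
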